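import Mathlib
import Pool.Agent.TH883.Zg.Mzv

/-!
# Algebraic relations between multiple zeta values with one large argument have large height
-/

set_option autoImplicit false

namespace Pool.Agent.Results.MP_f3dc73_nt.AlgebraicRelationHeights

/-- multiple harmonic sums: `harm [a_1, ..., a_r] k` is the sum of `∏ n_i ^ (-a_i)` over the integers
`k > n_1 > n_2 > ... > n_r ≥ 1` (by recursion: `n_1 = j` and `harm [a_2, ..., a_r] j`) -/
def harm : List ℕ+ → ℕ → ℚ
  | [], _ => 1
  | a :: l, k => ∑ j ∈ Finset.Ico 1 k, harm l j / (j : ℚ) ^ (a : ℕ)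

/-- the multiple zeta value of weight `s + a_1 + ... + a_r` whose largest summation index has the
exponent `s` and whose other exponents are, from the second largest index on, `a_1, ..., a_r`,
for `l = [a_1, ..., a_r]`: in the notation of the problem, `ζ(a_r, ..., a_1, s)` -/
noncomputable def mzv (s : ℕ) (l : List ℕ+) : ℝ :=
  ∑' k : ℕ, (harm l (k + 1) : ℝ) / ((k + 1 : ℕ) : ℝ) ^ s

open Pool.Agent.TH507.ZS Pool.Agent.TH507.HS Pool.Agent.TH883.Zg in
/-- Let `Λ` be a finite set of lists of positive integers, `h, d` natural numbers and `C` a real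
number. There are `B > 1` and `n0` such that for all `n ≥ n0` and every nonzero polynomial `P` with
integer coefficients in the variables `X (i, l)`, `i ≤ h`, `l ∈ Λ`, of total degree at most `d` and
with all coefficients at most `C ^ n` in absolute value, the value of `P` at `X (i, l) = ζ(l, n + i)`
is larger than `B ^ (-n)` in absolute value. -/
theorem result (Λ : Finset (List ℕ+)) (h d : ℕ) (C : ℝ) :
    ∃ B : ℝ, 1 < B ∧ ∃ n0 : ℕ, ∀ n : ℕ, n0 ≤ n →
      ∀ P : MvPolynomial (Fin (h + 1) × Λ) ℤ, P ≠ 0 → P.totalDegree ≤ d →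
      (∀ e, |((P.coeff e : ℤ) : ℝ)| ≤ C ^ n) →
      (B ^ n)⁻¹ < |MvPolynomial.aeval (fun j : Fin (h + 1) × Λ => mzv (n + j.1) j.2) P| := by
  have hh : ∀ l k, harm l k = hs l k := by
    intro l
    induction l with
    | nil => intro k; rw [harm, hs]
    | cons a l ih =>
      intro k
      rw [harm, hs]
      exact Finset.sum_congr rfl fun j _ => by rw [ih]
  have hm : ∀ s l, mzv s l = dser (hs l) s := by
    intro s l
    rw [mzv, dser]
    exact tsum_congr fun k => by rw [hh]
  simp only [hm]
  exact mzv_alg Λ h d C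

end Pool.Agent.Results.MP_f3dc73_nt.AlgebraicRelationHeights
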